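import Pool.Agent.H125.SD.Arr
import Pool.Agent.H125.SD.TTf
import Pool.Agent.H125.SD.Net
import Pool.Agent.H125.SD.Gam
import Pool.Agent.H125.SD.Idn
import Pool.Agent.H125.SD.Dec
import Pool.Agent.H125.SD.Cell
import Pool.Agent.H125.SD.Tau
import Pool.Agent.H125.SD.Cellf
import Pool.Agent.H125.SD.Row
import Pool.Agent.H125.SD.Seq
import Pool.Agent.H125.SD.Env
import Pool.Agent.H125.SD.QM
import Pool.Agent.H125.SD.Rev
import Pool.Agent.H125.SD.One
import Pool.Agent.H125.SD.Unif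
import Pool.Agent.H125.SD.Sup
import Pool.Agent.H125.SD.Multi
import Pool.Agent.H125.SD.Long
import Pool.Agent.H125.SD.Tail
import Pool.Agent.H125.SD.Tmf
import Pool.Agent.H125.SD.Exp2
import Pool.Agent.H125.SD.Mex2
import Pool.Agent.H125.SD.Mom3
import Pool.Agent.H125.SD.DD3
import Pool.Agent.H125.SD.Fin2
import Pool.Agent.H125.EX.Low2
import Pool.Agent.H125.EX.Up
import Pool.Agent.H125.EX.RND
import Pool.Agent.H125.EX.PNET
import Pool.Agent.H125.EX.DIG2
import Pool.Graph.R_seed8.Results.MP_173de9_an.LargeExponents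
import Pool.Graph.R_pool_sql_team_seeded_3dad9d7b.Results.MP_173de9_an.StarDiscHalfDim

/-!
# The `L_p` star discrepancy in dimension three, uniformly in all exponents `p`

The page asks for the order of `D(m,d)_∞` (and of `D(m,d)_1`), `d ≥ 3`.  The `L_p` star discrepancy
interpolates between a fixed exponent `p`, where the order is `(ln m)^((d-1)/2) / m`, and `p = ∞`.
For `d = 3` we show that for every `m ≥ 3` there is one set of `m` points with
`D(ξ,m,3)_p ≤ C (√p ln m + p²) / m` for all real `p ≥ 1`.  With the lower bounds of the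
earlier results `LargeExponents` and `StarDiscHalfDim` this determines the order of `D(m,3)_p`, it is
`√p (ln m) / m`, uniformly for `1 ≤ p ≤ (ln m)^(1/3) / ln ln m`, and up to a power of `ln ln m`
uniformly for `1 ≤ p ≤ (ln m)^(2/3)`.

The points come from a digital `(0,n,3)`-net in base `3` with random generating matrices and random
digital shifts.  For digital nets the term `p²` is forced, so that their `L_p` discrepancy is
understood for all `p`, `1 ≤ p ≤ ∞`: in every dimension `d ≥ 3` and every base `b` the nets that belong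
to homomorphisms of arbitrary finite groups have `L_p` star discrepancy at least
`c (√q n^((d-1)/2) / (1 + ln n)^A + q^(d-1)) / b^n` with `q = min(p, n)`, and for `d = 3` some digital
nets have at most `C (√q n + q²) / 3^n` for all `p` simultaneously.

Upper bound: for a fixed corner the local discrepancy is a martingale with `n` steps, one for each
row of the array of minors; the variance proxy of a step is the number of the segments of zeros of
the previous row, and this number is controlled by an exponential supermartingale in the rows.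

Lower bound `q^(d-1)`: the points of a slab `x_0 ∈ [v b^(k-n), (v+1) b^(k-n))`, `k ≤ p`, are, after
rescaling, again a group digital `(t,k,d)`-net, whose local discrepancy is `≥ c k^(d-1)` on a cell of
side `b^(-k)`; comparing this cell with the one at the beginning of the slab shows that the
discrepancy of the whole net is that large on a part `b^(-kd) / 2` of the cube.
-/

set_option autoImplicit false

namespace Pool.Agent.Results.MP_173de9_an.AllExponentsDimThree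

open MeasureTheory

/-- The local discrepancy `∏ x_j - Σ_μ λ_μ χ_{[0,x]}(ξ^μ)` of the points `ξ` with the weights `λ`. -/
noncomputable def localDisc {m d : ℕ} (lam : Fin m → ℝ) (ξ : Fin m → Fin d → ℝ) (x : Fin d → ℝ) : ℝ :=
  ∏ j, x j - ∑ μ : Fin m, lam μ * (Set.Icc (0 : Fin d → ℝ) x).indicator (fun _ => (1:ℝ)) (ξ μ)

/-- The `L_p` norm of the weighted local discrepancy over `[0,1]^d`. -/
noncomputable def starDisc (p : ENNReal) {m d : ℕ} (lam : Fin m → ℝ) (ξ : Fin m → Fin d → ℝ) :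
    ENNReal :=
  eLpNorm (localDisc lam ξ) p (volume.restrict (Set.Icc (0 : Fin d → ℝ) 1))

/-- `D(m,d)_p`: the infimum over all `m`-point sets (repetitions allowed) in `[0,1]^d`, all weights
equal to `1 / m`. -/
noncomputable def optDisc (p : ENNReal) (m d : ℕ) : ENNReal :=
  ⨅ (ξ : Fin m → Fin d → ℝ) (_ : ∀ μ, ξ μ ∈ Set.Icc (0 : Fin d → ℝ) 1),
    starDisc p (fun _ => 1 / (m:ℝ)) ξ

/-- The infimum over all `m`-point sets in `[0,1]^d` and all real weights. -/
noncomputable def optWeighted (p : ENNReal) (m d : ℕ) : ENNReal :=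
  ⨅ (lam : Fin m → ℝ) (ξ : Fin m → Fin d → ℝ) (_ : ∀ μ, ξ μ ∈ Set.Icc (0 : Fin d → ℝ) 1),
    starDisc p lam ξ

/-- The `i`-th digit in base `b` (`i = 0` is the first digit after the point) of `y ∈ [0,1)`. -/
noncomputable def digitAt (b i : ℕ) (y : ℝ) : ℕ := ⌊(b : ℝ) ^ (i + 1) * y⌋₊ % b

/-- Group digital point sets in base `b`: there are a group `A` with `b^n` elements, groups `G j i`
with `b` elements, homomorphisms `φ j i : A → G j i` and bijections `ψ j i : G j i → {0, …, b-1}` such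
that for some numbering of the points by the elements `a` of `A` the first `n` digits of the
coordinate `j` of the point of `a` are `ψ j 0 (φ j 0 a), ψ j 1 (φ j 1 a), …`. -/
def IsGroupDigital {b n d : ℕ} (ξ : Fin (b ^ n) → Fin d → ℝ) : Prop :=
  ∃ (A : Type) (_ : Group A) (G : Fin d → Fin n → Type) (_ : ∀ j i, Group (G j i))
    (φ : ∀ j i, A →* G j i) (ψ : ∀ j i, G j i ≃ Fin b) (e : Fin (b ^ n) ≃ A),
    ∀ μ j, 0 ≤ ξ μ j ∧ ξ μ j < 1 ∧ ∀ i : Fin n, digitAt b i (ξ μ j) = (ψ j i (φ j i (e μ)) : ℕ)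

/-- Digital point sets over `ℤ/3` with generating matrices `M j` and digital shifts `σ j`. -/
def IsDigitalThree {n d : ℕ} (ξ : Fin (3 ^ n) → Fin d → ℝ) : Prop :=
  ∃ (M : Fin d → Matrix (Fin n) (Fin n) (ZMod 3)) (σ : Fin d → Fin n → ZMod 3)
    (e : Fin (3 ^ n) ≃ (Fin n → ZMod 3)), ∀ μ j (i : Fin n),
      digitAt 3 i (ξ μ j) = ((M j).mulVec (e μ) i + σ j i).val

open Classical in
/-- `(t,n,d)`-nets in base `b`: every elementary interval `∏ [v_i b^(-k_i), (v_i+1) b^(-k_i))` of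
volume `b^(t-n)` contains exactly `b^t` of the `b^n` points. -/
def IsNet (b t n : ℕ) {d : ℕ} (ξ : Fin (b ^ n) → Fin d → ℝ) : Prop :=
  ∀ k v : Fin d → ℕ, ∑ i, k i + t = n → (∀ i, v i < b ^ k i) →
    (Finset.univ.filter (fun μ => ∀ i, (v i : ℝ) / (b:ℝ) ^ k i ≤ ξ μ i ∧
      ξ μ i < ((v i : ℝ) + 1) / (b:ℝ) ^ k i)).card = b ^ t

theorem localDisc_eq {m d : ℕ} (ξ : Fin m → Fin d → ℝ) :
    localDisc (fun _ => 1 / (m : ℝ)) ξ = H730R2.LU.ld ξ := by
  funext x
  unfold localDisc H730R2.LU.ld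
  rw [← Finset.mul_sum]

open H125.SD in
/-- the moments of the discrepancy at a corner -/
theorem moments : S_DD3 :=
  t_DD3 (t_dec t_id t_gam) t_net (t_cell t_arr t_TT)
    (t_mom3 (t_exp2 t_gam t_tau t_cellf t_row t_seq) t_mex2
      (t_tail (t_multi t_sup t_one) t_unif (t_long t_env)) t_tm t_QM t_rev)

theorem all_points : ∃ c C : ℝ, 0 < c ∧ 0 < C ∧ ∃ A : ℕ, ∀ m : ℕ, 3 ≤ m →
    (∃ ξ : Fin m → Fin 3 → ℝ, (∀ μ, ξ μ ∈ Set.Icc (0 : Fin 3 → ℝ) 1) ∧
      ∀ p : ℝ, 1 ≤ p → starDisc (ENNReal.ofReal p) (fun _ => 1 / (m : ℝ)) ξ ≤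
        ENNReal.ofReal (C * (Real.sqrt p * Real.log m + p ^ 2) / m)) ∧
    (∀ p : ℝ, 1 ≤ p → p ≤ (Real.log m) ^ (2 / 3 : ℝ) →
      ENNReal.ofReal (c * (Real.sqrt p * Real.log m) / (m * (1 + Real.log (Real.log m)) ^ A)) ≤
        optWeighted (ENNReal.ofReal p) m 3 ∧
      optWeighted (ENNReal.ofReal p) m 3 ≤ optDisc (ENNReal.ofReal p) m 3 ∧
      optDisc (ENNReal.ofReal p) m 3 ≤ ENNReal.ofReal (C * (Real.sqrt p * Real.log m) / m)) ∧
    (∀ p : ℝ, 1 ≤ p → p ≤ (Real.log m) ^ (1 / 3 : ℝ) / Real.log (Real.log m) →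
      ENNReal.ofReal (c * (Real.sqrt p * Real.log m) / m) ≤
        optWeighted (ENNReal.ofReal p) m 3 ∧
      optDisc (ENNReal.ofReal p) m 3 ≤ ENNReal.ofReal (C * (Real.sqrt p * Real.log m) / m)) := by
  obtain ⟨C, hC, hU⟩ := H125.SD.upper2 H125.SD.t_net moments N261.LP.t_X N261.LP.t_P
  obtain ⟨c1, hc1, H1⟩ := LargeExponents.result 3 le_rfl
  obtain ⟨c2, hc2, A, H2⟩ := StarDiscHalfDim.result 3 le_rfl
  have h30 : 0 < Real.log (Real.log 3) := by
    apply Real.log_pos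
    rw [Real.lt_log_iff_exp_lt (by norm_num)]
    exact Real.exp_one_lt_three
  set B : ℝ := 2 + 1 / (Real.log (Real.log 3)) ^ (3 / 2 : ℝ) with hB
  have hB2 : 2 ≤ B := by
    have : 0 ≤ 1 / (Real.log (Real.log 3)) ^ (3 / 2 : ℝ) := by positivity
    linarith
  refine ⟨min c1 c2, B * C, lt_min hc1 hc2, by positivity, A, fun m hm => ?_⟩
  have hm3 : (3 : ℝ) ≤ m := by exact_mod_cast hm
  have hm0 : (0 : ℝ) < m := by linarith
  have hL1 : 1 < Real.log m := by
    rw [Real.lt_log_iff_exp_lt hm0]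
    exact lt_of_lt_of_le Real.exp_one_lt_three hm3
  have hL0 : 0 < Real.log m := by linarith
  have hLL : 0 < Real.log (Real.log m) := Real.log_pos hL1
  have hd : (((3 : ℕ) : ℝ) - 1) / 2 = 1 := by norm_num
  obtain ⟨ξ, hξ, hξp⟩ := hU m (by omega)
  have hup : ∀ p : ℝ, 1 ≤ p → starDisc (ENNReal.ofReal p) (fun _ => 1 / (m : ℝ)) ξ ≤
      ENNReal.ofReal (C * (Real.sqrt p * Real.log m + p ^ 2) / m) := by
    intro p hp
    unfold starDisc
    rw [localDisc_eq]
    exact hξp p hp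
  have h32 : ∀ p : ℝ, 1 ≤ p → p * Real.sqrt p = p ^ (3 / 2 : ℝ) := by
    intro p hp
    rw [Real.sqrt_eq_rpow]
    nth_rewrite 1 [← Real.rpow_one p]
    rw [← Real.rpow_add (by linarith)]
    norm_num
  have hopt : ∀ p : ℝ, 1 ≤ p → p ^ (3 / 2 : ℝ) ≤ (B - 1) * Real.log m →
      optDisc (ENNReal.ofReal p) m 3 ≤ ENNReal.ofReal (B * C * (Real.sqrt p * Real.log m) / m) := by
    intro p hp hp2
    refine (iInf₂_le ξ hξ).trans ((hup p hp).trans (ENNReal.ofReal_le_ofReal ?_))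
    apply div_le_div_of_nonneg_right _ hm0.le
    have hp0 : 0 ≤ p := by linarith
    have e2 : p ^ 2 ≤ (B - 1) * (Real.sqrt p * Real.log m) := by
      have h1 : Real.sqrt p * Real.sqrt p = p := Real.mul_self_sqrt hp0
      calc p ^ 2 = Real.sqrt p * (p * Real.sqrt p) := by nlinarith
        _ ≤ Real.sqrt p * ((B - 1) * Real.log m) :=
          mul_le_mul_of_nonneg_left ((h32 p hp).le.trans hp2) (Real.sqrt_nonneg _)
        _ = _ := by ring
    calc C * (Real.sqrt p * Real.log m + p ^ 2) ≤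
        C * (Real.sqrt p * Real.log m + (B - 1) * (Real.sqrt p * Real.log m)) := by gcongr
      _ = _ := by ring
  have hr1 : ∀ p : ℝ, 1 ≤ p → p ≤ (Real.log m) ^ (2 / 3 : ℝ) →
      p ^ (3 / 2 : ℝ) ≤ (B - 1) * Real.log m := by
    intro p hp hp2
    have hp0 : 0 ≤ p := by linarith
    refine (Real.rpow_le_rpow hp0 hp2 (by norm_num)).trans ?_
    rw [← Real.rpow_mul hL0.le]
    norm_num
    nlinarith
  have hr2 : ∀ p : ℝ, 1 ≤ p → p ≤ (Real.log m) ^ (1 / 3 : ℝ) / Real.log (Real.log m) →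
      p ^ (3 / 2 : ℝ) ≤ (B - 1) * Real.log m := by
    intro p hp hp2
    have hp0 : 0 ≤ p := by linarith
    have hl3 : Real.log (Real.log 3) ≤ Real.log (Real.log m) := by
      apply Real.log_le_log
      · exact Real.log_pos (by norm_num)
      · exact Real.log_le_log (by norm_num) hm3
    have e1 : p ≤ (Real.log m) ^ (1 / 3 : ℝ) / Real.log (Real.log 3) :=
      hp2.trans (div_le_div_of_nonneg_left (by positivity) h30 hl3)
    have e2 : ((Real.log m) ^ (1 / 3 : ℝ)) ^ (3 / 2 : ℝ) ≤ Real.log m := by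
      rw [← Real.rpow_mul hL0.le]
      calc (Real.log m) ^ ((1 / 3 : ℝ) * (3 / 2)) ≤ (Real.log m) ^ (1 : ℝ) :=
            Real.rpow_le_rpow_of_exponent_le hL1.le (by norm_num)
        _ = Real.log m := Real.rpow_one _
    have e3 : 0 < (Real.log (Real.log 3)) ^ (3 / 2 : ℝ) := by positivity
    calc p ^ (3 / 2 : ℝ) ≤ ((Real.log m) ^ (1 / 3 : ℝ) / Real.log (Real.log 3)) ^ (3 / 2 : ℝ) :=
          Real.rpow_le_rpow hp0 e1 (by norm_num)
      _ = ((Real.log m) ^ (1 / 3 : ℝ)) ^ (3 / 2 : ℝ) / (Real.log (Real.log 3)) ^ (3 / 2 : ℝ) :=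
          Real.div_rpow (by positivity) h30.le _
      _ ≤ Real.log m / (Real.log (Real.log 3)) ^ (3 / 2 : ℝ) :=
          div_le_div_of_nonneg_right e2 e3.le
      _ = (1 / (Real.log (Real.log 3)) ^ (3 / 2 : ℝ)) * Real.log m := by ring
      _ ≤ (B - 1) * Real.log m := mul_le_mul_of_nonneg_right (by rw [hB]; linarith) hL0.le
  have hpe : ∀ p : ℝ, 1 ≤ p → (1 : ENNReal) ≤ ENNReal.ofReal p := fun p hp => by
    rw [← ENNReal.ofReal_one]; exact ENNReal.ofReal_le_ofReal hp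
  have hsq : ∀ p : ℝ, 1 ≤ p → (ENNReal.ofReal p) ^ (1 / 2 : ℝ) = ENNReal.ofReal (Real.sqrt p) := by
    intro p hp
    rw [ENNReal.ofReal_rpow_of_nonneg (by linarith) (by norm_num), Real.sqrt_eq_rpow]
  have hWD : ∀ p : ENNReal, optWeighted p m 3 ≤ optDisc p m 3 := (H2 m hm).2.2
  refine ⟨⟨ξ, hξ, fun p hp => (hup p hp).trans (ENNReal.ofReal_le_ofReal ?_)⟩,
    fun p hp1 hp2 => ⟨?_, hWD _, hopt p hp1 (hr1 p hp1 hp2)⟩,
    fun p hp1 hp2 => ⟨?_, hopt p hp1 (hr2 p hp1 hp2)⟩⟩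
  · apply div_le_div_of_nonneg_right _ hm0.le
    have h1 : 0 ≤ Real.sqrt p * Real.log m + p ^ 2 := by positivity
    have h2 : C ≤ B * C := by nlinarith
    exact mul_le_mul_of_nonneg_right h2 h1
  · -- lower bound with `ln ln`
    have h := (H2 m hm).1 (ENNReal.ofReal p) (hpe p hp1)
    refine le_trans ?_ h
    have e1 : Real.sqrt p ≤ (Real.log m) ^ (1 / 2 : ℝ) := by
      rw [Real.sqrt_eq_rpow]
      refine Real.rpow_le_rpow (by linarith) (hp2.trans ?_) (by norm_num)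
      calc (Real.log m) ^ (2 / 3 : ℝ) ≤ (Real.log m) ^ (1 : ℝ) :=
            Real.rpow_le_rpow_of_exponent_le hL1.le (by norm_num)
        _ = Real.log m := Real.rpow_one _
    rw [hsq p hp1, min_eq_left (ENNReal.ofReal_le_ofReal e1), ← ENNReal.ofReal_mul (by positivity)]
    apply ENNReal.ofReal_le_ofReal
    rw [hd, Real.rpow_one]
    have h3 : 0 < (m : ℝ) * (1 + Real.log (Real.log m)) ^ A := by positivity
    rw [div_mul_eq_mul_div]
    apply div_le_div_of_nonneg_right _ h3.le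
    have h4 : 0 ≤ Real.sqrt p * Real.log m := by positivity
    calc min c1 c2 * (Real.sqrt p * Real.log m) ≤ c2 * (Real.sqrt p * Real.log m) :=
          mul_le_mul_of_nonneg_right (min_le_right _ _) h4
      _ = c2 * Real.log m * Real.sqrt p := by ring
  · -- lower bound without `ln ln`
    have h := (H1 m hm (ENNReal.ofReal p) (hpe p hp1)).1
    refine le_trans ?_ h
    have e1 : Real.sqrt p ≤ (Real.log m) ^ (1 / (2 * ((3 : ℕ) : ℝ))) /
        (Real.log (Real.log m)) ^ (1 / 2 : ℝ) := by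
      rw [Real.sqrt_eq_rpow]
      refine (Real.rpow_le_rpow (by linarith) hp2 (by norm_num)).trans (le_of_eq ?_)
      rw [Real.div_rpow (by positivity) hLL.le, ← Real.rpow_mul hL0.le]
      norm_num
    rw [hsq p hp1, min_eq_left (ENNReal.ofReal_le_ofReal e1), ← ENNReal.ofReal_mul (by positivity)]
    apply ENNReal.ofReal_le_ofReal
    rw [hd, Real.rpow_one, div_mul_eq_mul_div]
    apply div_le_div_of_nonneg_right _ hm0.le
    have h4 : 0 ≤ Real.sqrt p * Real.log m := by positivity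
    calc min c1 c2 * (Real.sqrt p * Real.log m) ≤ c1 * (Real.sqrt p * Real.log m) :=
          mul_le_mul_of_nonneg_right (min_le_left _ _) h4
      _ = c1 * Real.log m * Real.sqrt p := by ring

/-- the upper bound for digital nets -/
theorem digital_upper : ∃ C : ℝ, 0 < C ∧ ∀ n : ℕ, 1 ≤ n → ∃ ξ : Fin (3 ^ n) → Fin 3 → ℝ,
    IsDigitalThree ξ ∧ IsGroupDigital ξ ∧ IsNet 3 0 n ξ ∧ ∀ p : ℝ, 1 ≤ p →
      starDisc (ENNReal.ofReal p) (fun _ => 1 / ((3 ^ n : ℕ) : ℝ)) ξ ≤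
        ENNReal.ofReal (C * (Real.sqrt (min p n) * n + (min p n) ^ 2) / (3 : ℝ) ^ n) := by
  have h3 : Fact (Nat.Prime 3) := ⟨Nat.prime_three⟩
  obtain ⟨C, hC, hU⟩ := H125.EX.t_up H125.SD.t_net moments N261.LP.t_X H125.EX.t_rnd
  refine ⟨C, hC, fun n hn => ?_⟩
  obtain ⟨ω, σ1, σ2, h⟩ := hU n hn
  obtain ⟨e, he1, he2, hgd, M, σ, N, hM⟩ := H125.EX.t_dig2 n ω σ1 σ2
  refine ⟨_, ⟨M, σ, N, hM⟩, hgd, H125.EX.t_pnet 3 3 n _ (H125.SD.t_net n ω σ1 σ2) e he1 he2,
    fun p hp => ?_⟩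
  unfold starDisc
  rw [localDisc_eq]
  exact h e he1 he2 p hp

/-- the lower bound for digital nets -/
theorem digital_lower (d : ℕ) (hd : 3 ≤ d) : ∃ A : ℕ, ∀ b t : ℕ, 2 ≤ b → ∃ c : ℝ, 0 < c ∧
    ∀ n : ℕ, 2 ≤ n → ∀ ξ : Fin (b ^ n) → Fin d → ℝ, IsGroupDigital ξ → IsNet b t n ξ →
      ∀ p : ℝ, 1 ≤ p → ENNReal.ofReal (c * (Real.sqrt (min p n) * (n : ℝ) ^ (((d : ℝ) - 1) / 2) /
        (1 + Real.log n) ^ A + (min p n) ^ (d - 1)) / (b : ℝ) ^ n) ≤
          starDisc (ENNReal.ofReal p) (fun _ => 1 / ((b ^ n : ℕ) : ℝ)) ξ := by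
  obtain ⟨A, h⟩ := H125.EX.low_all d hd
  refine ⟨A, fun b t hb => ?_⟩
  obtain ⟨c, hc, h1⟩ := h b t hb
  refine ⟨c, hc, fun n hn ξ hξ hnet p hp => ?_⟩
  unfold starDisc
  rw [localDisc_eq]
  exact h1 n hn ξ hξ hnet p hp

/-- **Theorem.** (a) There are constants `c, C > 0` and `A` such that for every `m ≥ 3`:
(1) there is one set of `m` points in `[0,1]^3` whose `L_p` star discrepancy is at most
`C (√p ln m + p²) / m` for all real `p ≥ 1` simultaneously;
(2) for all real `1 ≤ p ≤ (ln m)^(2/3)` one has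
`c √p (ln m) / (m (1 + ln ln m)^A) ≤ D_w(m,3)_p ≤ D(m,3)_p ≤ C √p (ln m) / m`,
where `D(m,3)_p` is the optimal `L_p` star discrepancy of `m` points and `D_w(m,3)_p` the one with
arbitrary real weights;
(3) for all real `1 ≤ p ≤ (ln m)^(1/3) / ln ln m` the lower bound holds without the factor
`(1 + ln ln m)^A`, so that `c √p (ln m) / m ≤ D_w(m,3)_p ≤ D(m,3)_p ≤ C √p (ln m) / m`.
(b) Digital nets, all exponents, `q = min(p, n)`:
(4) for some `C` and every `n ≥ 1` there is a digitally shifted digital `(0,n,3)`-net over `ℤ/3` whose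
`L_p` star discrepancy is at most `C (√q n + q²) / 3^n` for all real `p ≥ 1` simultaneously;
(5) for every `d ≥ 3` there is `A` such that for all `b ≥ 2` and `t` there is `c > 0` such that every
group digital `(t,n,d)`-net in base `b`, `n ≥ 2`, has for all real `p ≥ 1` `L_p` star discrepancy at
least `c (√q n^((d-1)/2) / (1 + ln n)^A + q^(d-1)) / b^n`. -/
theorem result :
    (∃ c C : ℝ, 0 < c ∧ 0 < C ∧ ∃ A : ℕ, ∀ m : ℕ, 3 ≤ m →
      (∃ ξ : Fin m → Fin 3 → ℝ, (∀ μ, ξ μ ∈ Set.Icc (0 : Fin 3 → ℝ) 1) ∧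
        ∀ p : ℝ, 1 ≤ p → starDisc (ENNReal.ofReal p) (fun _ => 1 / (m : ℝ)) ξ ≤
          ENNReal.ofReal (C * (Real.sqrt p * Real.log m + p ^ 2) / m)) ∧
      (∀ p : ℝ, 1 ≤ p → p ≤ (Real.log m) ^ (2 / 3 : ℝ) →
        ENNReal.ofReal (c * (Real.sqrt p * Real.log m) / (m * (1 + Real.log (Real.log m)) ^ A)) ≤
          optWeighted (ENNReal.ofReal p) m 3 ∧
        optWeighted (ENNReal.ofReal p) m 3 ≤ optDisc (ENNReal.ofReal p) m 3 ∧
        optDisc (ENNReal.ofReal p) m 3 ≤ ENNReal.ofReal (C * (Real.sqrt p * Real.log m) / m)) ∧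
      (∀ p : ℝ, 1 ≤ p → p ≤ (Real.log m) ^ (1 / 3 : ℝ) / Real.log (Real.log m) →
        ENNReal.ofReal (c * (Real.sqrt p * Real.log m) / m) ≤
          optWeighted (ENNReal.ofReal p) m 3 ∧
        optDisc (ENNReal.ofReal p) m 3 ≤ ENNReal.ofReal (C * (Real.sqrt p * Real.log m) / m))) ∧
    (∃ C : ℝ, 0 < C ∧ ∀ n : ℕ, 1 ≤ n → ∃ ξ : Fin (3 ^ n) → Fin 3 → ℝ,
      IsDigitalThree ξ ∧ IsGroupDigital ξ ∧ IsNet 3 0 n ξ ∧ ∀ p : ℝ, 1 ≤ p →
        starDisc (ENNReal.ofReal p) (fun _ => 1 / ((3 ^ n : ℕ) : ℝ)) ξ ≤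
          ENNReal.ofReal (C * (Real.sqrt (min p n) * n + (min p n) ^ 2) / (3 : ℝ) ^ n)) ∧
    (∀ d : ℕ, 3 ≤ d → ∃ A : ℕ, ∀ b t : ℕ, 2 ≤ b → ∃ c : ℝ, 0 < c ∧
      ∀ n : ℕ, 2 ≤ n → ∀ ξ : Fin (b ^ n) → Fin d → ℝ, IsGroupDigital ξ → IsNet b t n ξ →
        ∀ p : ℝ, 1 ≤ p → ENNReal.ofReal (c * (Real.sqrt (min p n) * (n : ℝ) ^ (((d : ℝ) - 1) / 2) /
          (1 + Real.log n) ^ A + (min p n) ^ (d - 1)) / (b : ℝ) ^ n) ≤
            starDisc (ENNReal.ofReal p) (fun _ => 1 / ((b ^ n : ℕ) : ℝ)) ξ) :=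
  ⟨all_points, digital_upper, digital_lower⟩

end Pool.Agent.Results.MP_173de9_an.AllExponentsDimThree
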