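import Pool.Agent.H553.SL.Box

/-!
# The star discrepancy of almost every section: the exponent `d / 2`

Let `D` be the discrepancy function of a point set in dimension `d ≥ 3` and `ε > 0`. For every
coordinate `j` and all `t ∈ [0,1]` outside of at most `m ^ ε` intervals of length `1 / m` the
`(d - 1)`-dimensional section `x_j = t` contains a point at which the local discrepancy is at least
`c (ln m)^(d/2) / (m (1 + ln ln m)^A)`. The same holds in every box, with all weights at least one, and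
modulo functions of fewer variables.
-/

set_option autoImplicit false

namespace Pool.Agent.Results.MP_173de9_an.AlmostEverySection

open MeasureTheory Finset
open Pool.Agent.H553.CT (log_facts)

/-- The local discrepancy `∏ x_i - (1/m) ∑_μ χ[ξ^μ ≤ x]` of the points `ξ^1, …, ξ^m`. -/
noncomputable def localDisc {m d : ℕ} (ξ : Fin m → Fin d → ℝ) (x : Fin d → ℝ) : ℝ :=
  ∏ i, x i - (1 / (m : ℝ)) * ∑ μ, (Set.Icc 0 x).indicator (fun _ => (1 : ℝ)) (ξ μ)

/-- The discrepancy function `∑_k w_k χ[ξ_k ≤ x] - M x_1 ⋯ x_d` of the points `ξ_k` of `ℝ^d` with the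
weights `w_k` with respect to `M` times the Lebesgue measure. -/
noncomputable def disc {n d : ℕ} (w : Fin n → ℝ) (ξ : Fin n → Fin d → ℝ) (M : ℝ) (x : Fin d → ℝ) :
    ℝ :=
  ∑ k, (if ∀ i, ξ k i ≤ x i then w k else 0) - M * ∏ i, x i

/-- The volume `∏ (b_i - a_i)` of the box `[a, b]`. -/
noncomputable def vol {d : ℕ} (a b : Fin d → ℝ) : ℝ := ∏ i, (b i - a i)

/-- `IndepOf i g`: the function `g` does not depend on the `i`-th variable. -/
def IndepOf {d : ℕ} (i : Fin d) (g : (Fin d → ℝ) → ℝ) : Prop :=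
  ∀ (x : Fin d → ℝ) (t : ℝ), g (Function.update x i t) = g x

/-- The section `x_j = t` of the box is bad: `|F| < L` at all its points in the interior of the
section. -/
def Bad {d : ℕ} (F : (Fin d → ℝ) → ℝ) (a b : Fin d → ℝ) (j : Fin d) (L t : ℝ) : Prop :=
  ∀ x : Fin d → ℝ, x j = t → (∀ i, i ≠ j → a i < x i ∧ x i < b i) → |F x| < L

/-- The numbers `k` of the intervals `[a_j + k (b_j - a_j) / X, a_j + (k + 1) (b_j - a_j) / X)` of the
`j`-th edge of the box which contain a `t ∈ [a_j, b_j]` with a bad section. -/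
def badIntervals {d : ℕ} (F : (Fin d → ℝ) → ℝ) (a b : Fin d → ℝ) (j : Fin d) (L X : ℝ) : Set ℕ :=
  {k : ℕ | ∃ t : ℝ, a j + k * ((b j - a j) / X) ≤ t ∧ t < a j + (k + 1) * ((b j - a j) / X) ∧
    t ≤ b j ∧ Bad F a b j L t}

theorem bad_finite {d : ℕ} (F : (Fin d → ℝ) → ℝ) (a b : Fin d → ℝ) (j : Fin d) (hab : a j < b j)
    (L X : ℝ) (hX : 0 < X) : (badIntervals F a b j L X).Finite := by
  refine (Set.finite_le_nat ⌊X⌋₊).subset ?_
  rintro k ⟨t, h1, _, h3, _⟩
  have hl : 0 < b j - a j := sub_pos.2 hab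
  refine Nat.le_floor ?_
  have h4 : (k : ℝ) * ((b j - a j) / X) ≤ b j - a j := by linarith
  rw [mul_div_assoc', div_le_iff₀ hX, mul_comm (b j - a j)] at h4
  exact le_of_mul_le_mul_right h4 hl

/-- the measure of the set of the bad sections -/
theorem bad_measure {d : ℕ} (F : (Fin d → ℝ) → ℝ) (a b : Fin d → ℝ) (j : Fin d) (hab : a j < b j)
    (L X Y : ℝ) (hX : 0 < X) (h : ((badIntervals F a b j L X).ncard : ℝ) ≤ Y) :
    volume {t : ℝ | t ∈ Set.Icc (a j) (b j) ∧ Bad F a b j L t} ≤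
      ENNReal.ofReal ((b j - a j) * (Y / X)) := by
  classical
  have hl : 0 < b j - a j := sub_pos.2 hab
  have hfin := bad_finite F a b j hab L X hX
  have hδ : 0 < (b j - a j) / X := by positivity
  have hsub : {t : ℝ | t ∈ Set.Icc (a j) (b j) ∧ Bad F a b j L t} ⊆
      ⋃ k ∈ hfin.toFinset, Set.Ico (a j + k * ((b j - a j) / X))
        (a j + (k + 1) * ((b j - a j) / X)) := by
    rintro t ⟨⟨h1, h2⟩, h3⟩
    set y : ℝ := (t - a j) / ((b j - a j) / X) with hy
    have hy0 : 0 ≤ y := div_nonneg (by linarith) hδ.le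
    have hty : t = a j + y * ((b j - a j) / X) := by
      rw [hy, div_mul_cancel₀ _ hδ.ne']
      ring
    have h4 : a j + (⌊y⌋₊ : ℝ) * ((b j - a j) / X) ≤ t := by
      have := mul_le_mul_of_nonneg_right (Nat.floor_le hy0) hδ.le
      linarith
    have h5 : t < a j + ((⌊y⌋₊ : ℝ) + 1) * ((b j - a j) / X) := by
      have := mul_lt_mul_of_pos_right (Nat.lt_floor_add_one y) hδ
      linarith
    refine Set.mem_biUnion (x := ⌊y⌋₊) ?_ ⟨h4, h5⟩
    rw [Finset.mem_coe, Set.Finite.mem_toFinset]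
    exact ⟨t, h4, h5, h2, h3⟩
  refine (measure_mono hsub).trans ((measure_biUnion_finset_le _ _).trans ?_)
  have h6 : ∀ k ∈ hfin.toFinset, volume (Set.Ico (a j + (k : ℝ) * ((b j - a j) / X))
      (a j + ((k : ℝ) + 1) * ((b j - a j) / X))) = ENNReal.ofReal ((b j - a j) / X) := by
    intro k _
    rw [Real.volume_Ico]
    congr 1
    ring
  rw [Finset.sum_congr rfl h6, Finset.sum_const, nsmul_eq_mul]
  rw [Set.ncard_eq_toFinset_card _ hfin] at h
  calc ((hfin.toFinset.card : ℕ) : ENNReal) * ENNReal.ofReal ((b j - a j) / X)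
      = ENNReal.ofReal ((hfin.toFinset.card : ℝ) * ((b j - a j) / X)) := by
        rw [ENNReal.ofReal_mul (Nat.cast_nonneg _), ENNReal.ofReal_natCast]
    _ ≤ _ := by
        apply ENNReal.ofReal_le_ofReal
        calc (hfin.toFinset.card : ℝ) * ((b j - a j) / X) ≤ Y * ((b j - a j) / X) :=
              mul_le_mul_of_nonneg_right h hδ.le
          _ = _ := by ring

theorem localDisc_eq {m d : ℕ} (hm : 0 < m) (ξ : Fin m → Fin d → ℝ)
    (hξ : ∀ μ, ξ μ ∈ Set.Icc (0 : Fin d → ℝ) 1) (x : Fin d → ℝ) :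
    disc (fun _ => 1) ξ m x = - (m * localDisc ξ x) := by
  have hm0 : (m : ℝ) ≠ 0 := by
    have : (0 : ℝ) < m := by exact_mod_cast hm
    exact this.ne'
  unfold disc localDisc
  rw [mul_sub, ← mul_assoc, mul_one_div_cancel hm0, one_mul, neg_sub]
  congr 1
  refine Finset.sum_congr rfl fun μ _ => ?_
  by_cases h : ∀ i, ξ μ i ≤ x i
  · rw [if_pos h, Set.indicator_of_mem (show ξ μ ∈ Set.Icc 0 x from ⟨(hξ μ).1, h⟩)]
  · rw [if_neg h, Set.indicator_of_notMem (fun h' => h h'.2)]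

/-- **The discrepancy of almost every section.** Let `d ≥ 3` and `ε > 0`. There are `A`, `c > 0` and
`X₀` such that:

(1) For all `m ≥ X₀`, all `ξ^1, …, ξ^m ∈ [0,1]^d` and every coordinate `j`, at most `m^ε` of the
intervals `[k/m, (k+1)/m)` contain a `t ∈ [0,1]` with a bad section, that is, with local discrepancy
smaller than `c (ln m)^(d/2) / (m (1 + ln ln m)^A)` in absolute value at all `x` with `x_j = t` and
`x_i ∈ (0,1)` for `i ≠ j`; the set of these `t` has measure at most `m^(ε-1)`.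

(2) For all points `ξ_1, …, ξ_n` of `ℝ^d` (any number), all real `M`, all boxes `[a, b]` with
`X = M vol [a, b] ≥ X₀`, all weights which are at least one at the points of `(a, b]`, all functions
`g_1, …, g_d` such that `g_i` does not depend on the `i`-th variable and every coordinate `j` the same
holds for the function `∑_k w_k χ[ξ_k ≤ x] - M x_1 ⋯ x_d - ∑_i g_i (x)` in the box `[a, b]`: at most
`X^ε` of the intervals `[a_j + k (b_j - a_j) / X, a_j + (k+1) (b_j - a_j) / X)` contain a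
`t ∈ [a_j, b_j]` for which the function is smaller than `c (ln X)^(d/2) / (1 + ln ln X)^A` in absolute
value at all `x` with `x_j = t` and `x_i ∈ (a_i, b_i)` for `i ≠ j`; the set of these `t` has measure at
most `(b_j - a_j) X^(ε-1)`. -/
theorem result (d : ℕ) (hd : 3 ≤ d) (ε : ℝ) (hε : 0 < ε) : ∃ A : ℕ, ∃ c : ℝ, 0 < c ∧
    ∃ X₀ : ℝ, 16 ≤ X₀ ∧
    (∀ m : ℕ, X₀ ≤ m → ∀ ξ : Fin m → Fin d → ℝ, (∀ μ, ξ μ ∈ Set.Icc (0 : Fin d → ℝ) 1) →
      ∀ (j : Fin d) (L : ℝ),
      L = c * (Real.log m) ^ ((d : ℝ) / 2) / (m * (1 + Real.log (Real.log m)) ^ A) →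
      ((badIntervals (localDisc ξ) 0 1 j L m).ncard : ℝ) ≤ (m : ℝ) ^ ε ∧
      volume {t : ℝ | t ∈ Set.Icc (0 : ℝ) 1 ∧ Bad (localDisc ξ) 0 1 j L t} ≤
        ENNReal.ofReal ((m : ℝ) ^ (ε - 1))) ∧
    (∀ (n : ℕ) (w : Fin n → ℝ) (ξ : Fin n → Fin d → ℝ) (M : ℝ) (a b : Fin d → ℝ),
      (∀ i, a i < b i) → ∀ X : ℝ, X = M * vol a b → X₀ ≤ X →
      (∀ k, (∀ i, a i < ξ k i ∧ ξ k i ≤ b i) → 1 ≤ w k) →
      ∀ g : Fin d → (Fin d → ℝ) → ℝ, (∀ i, IndepOf i (g i)) → ∀ (j : Fin d) (L : ℝ),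
      L = c * (Real.log X) ^ ((d : ℝ) / 2) / (1 + Real.log (Real.log X)) ^ A →
      ((badIntervals (fun x => disc w ξ M x - ∑ i, g i x) a b j L X).ncard : ℝ) ≤ X ^ ε ∧
      volume {t : ℝ | t ∈ Set.Icc (a j) (b j) ∧
          Bad (fun x => disc w ξ M x - ∑ i, g i x) a b j L t} ≤
        ENNReal.ofReal ((b j - a j) * X ^ (ε - 1))) := by
  classical
  obtain ⟨e, rfl⟩ : ∃ e, d = e + 1 := ⟨d - 1, by omega⟩
  obtain ⟨A, c, hc, X₀, hX₀, K⟩ := Pool.Agent.H553.SL.box_log e (by omega) ε hε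
  have main : ∀ (n : ℕ) (w : Fin n → ℝ) (ξ : Fin n → Fin (e + 1) → ℝ) (M : ℝ)
      (a b : Fin (e + 1) → ℝ),
      (∀ i, a i < b i) → ∀ X : ℝ, X = M * vol a b → X₀ ≤ X →
      (∀ k, (∀ i, a i < ξ k i ∧ ξ k i ≤ b i) → 1 ≤ w k) →
      ∀ g : Fin (e + 1) → (Fin (e + 1) → ℝ) → ℝ, (∀ i, IndepOf i (g i)) →
      ∀ (j : Fin (e + 1)) (L : ℝ),
      L = c * (Real.log X) ^ (((e + 1 : ℕ) : ℝ) / 2) / (1 + Real.log (Real.log X)) ^ A →
      ((badIntervals (fun x => disc w ξ M x - ∑ i, g i x) a b j L X).ncard : ℝ) ≤ X ^ ε ∧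
      volume {t : ℝ | t ∈ Set.Icc (a j) (b j) ∧
          Bad (fun x => disc w ξ M x - ∑ i, g i x) a b j L t} ≤
        ENNReal.ofReal ((b j - a j) * X ^ (ε - 1)) := by
    intro n w ξ M a b hab X hXd hX hw g hg j L hL
    have hX0 : 0 < X := by linarith
    have hfin := bad_finite (fun x => disc w ξ M x - ∑ i, g i x) a b j (hab j) L X hX0
    have h1 : ((badIntervals (fun x => disc w ξ M x - ∑ i, g i x) a b j L X).ncard : ℝ) ≤
        X ^ ε := by
      rw [Set.ncard_eq_toFinset_card _ hfin]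
      have hXd' : X = M * ∏ i, (b i - a i) := hXd
      have hK := K n w ξ M a b hab
      rw [← hXd'] at hK
      refine hK hX hw g (fun i x y => hg i x y) j hfin.toFinset ?_
      intro k hk
      obtain ⟨t, h1, h2, h3, h4⟩ := hfin.mem_toFinset.1 hk
      refine ⟨t, h1, h2, h3, fun x hx hx' => ?_⟩
      have h5 := h4 x hx hx'
      rw [hL] at h5
      push_cast at h5
      exact h5
    refine ⟨h1, (bad_measure _ a b j (hab j) L X _ hX0 h1).trans (le_of_eq ?_)⟩
    congr 2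
    rw [Real.rpow_sub hX0, Real.rpow_one]
  refine ⟨A, c, hc, X₀, hX₀, ?_, main⟩
  intro m hm ξ hξ j L hL
  have hm0 : (0 : ℝ) < m := by linarith
  have hmN : 0 < m := by exact_mod_cast hm0
  have hvol : (m : ℝ) = m * vol (0 : Fin (e + 1) → ℝ) 1 := by
    unfold vol
    simp
  obtain ⟨h1, h2⟩ := main m (fun _ => 1) ξ m 0 1 (fun i => by simp) m hvol hm
    (fun _ _ => le_rfl) (fun _ _ => 0) (fun _ _ _ => rfl) j (m * L) (by
      rw [hL]
      have h3 : (1 + Real.log (Real.log m)) ^ A ≠ 0 := by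
        obtain ⟨h4, h5⟩ := log_facts (hX₀.trans hm)
        positivity
      field_simp)
  have hbad : ∀ t : ℝ, Bad (fun x => disc (fun _ => 1) ξ m x - ∑ i : Fin (e + 1), (0 : ℝ))
      (0 : Fin (e + 1) → ℝ) 1 j (m * L) t ↔ Bad (localDisc ξ) 0 1 j L t := by
    intro t
    unfold Bad
    refine forall_congr' fun x => forall_congr' fun _ => forall_congr' fun _ => ?_
    simp only [Finset.sum_const_zero, sub_zero]
    rw [localDisc_eq hmN ξ hξ, abs_neg, abs_mul, abs_of_pos hm0]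
    exact mul_lt_mul_iff_of_pos_left hm0
  constructor
  · have e1 : badIntervals (localDisc ξ) 0 1 j L m =
        badIntervals (fun x => disc (fun _ => 1) ξ m x - ∑ i : Fin (e + 1), (0 : ℝ))
          0 1 j (m * L) m := by
      unfold badIntervals
      simp only [hbad]
    rw [e1]
    exact h1
  · have e2 : {t : ℝ | t ∈ Set.Icc (0 : ℝ) 1 ∧ Bad (localDisc ξ) 0 1 j L t} =
        {t : ℝ | t ∈ Set.Icc ((0 : Fin (e + 1) → ℝ) j) ((1 : Fin (e + 1) → ℝ) j) ∧
          Bad (fun x => disc (fun _ => 1) ξ m x - ∑ i : Fin (e + 1), (0 : ℝ)) 0 1 j (m * L) t} := by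
      ext t
      simp only [Set.mem_ofPred_eq, hbad, Pi.zero_apply, Pi.one_apply]
    rw [e2]
    refine h2.trans (le_of_eq ?_)
    simp

end Pool.Agent.Results.MP_173de9_an.AlmostEverySection
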