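import Pool.Agent.H555.FF.FinS

set_option autoImplicit false

/-!
# The star discrepancy of digital sets, dimension `d ≥ 3`, uniformly in the finite field

`F` is a finite field, `q` its number of elements. A digital set of `q^m` points in `[0,1)^d` is
given by arbitrary `m × m` generating matrices over `F`; the digits are mapped to `{0, …, q-1}` by
arbitrary bijections which may depend on the coordinate and on the position (all digital shifts
and all digit permutations are included), and the digits after the `m`-th one are arbitrary.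
Put `L = 1 + log m / log q`. The constants `c, C > 0` and `A` depend only on `d`.

* Lower bounds, with `a = 1 + 1/(d-2)`: every digital set has star discrepancy at least
  `c (m/L^a)^(d-1) / q^m`, and every digital `(t,m,d)`-net over `F` has star discrepancy at least
  `c (m/(t+1)^a)^(d-1) / q^m`.
* Upper bound, for `m ≥ q^A`: there are generating matrices over `F` such that all digital sets
  with these matrices, and all their digital shifts, have star discrepancy at most
  `C (m/L)^(d-1) / q^m`.
* Every set of `q^m` points of `[0,1)^d`, digital or not, has a digital shift in base `q` with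
  star discrepancy at least `c (m/L)^(d-1) / q^m`.

So the least star discrepancy of the digital sets is of the exact order `m^(d-1) / q^m` for
`q^A ≤ m ≤ q^B`, every fixed `B`; for a fixed field, for example the one with two elements, it is
`m^(d-1) / q^m` divided by a factor between `(log m)^(d-1)` and `(log m)^((d-1)²/(d-2))`; and for the
worst digital shift in base `q` the least star discrepancy of all sets of `q^m` points is of the
exact order `(m/L)^(d-1) / q^m`, `m ≥ q^A`.
-/

namespace Pool.Agent.Results.MP_173de9_an.DigitalSetsOrder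

open Finset MeasureTheory

/-- The `i`-th digit in base `q` (`i = 0` is the first digit after the point) of `y ∈ [0,1)`. -/
noncomputable def digitAt (q i : ℕ) (y : ℝ) : ℕ := ⌊(q : ℝ) ^ (i + 1) * y⌋₊ % q

/-- The local discrepancy `∏ x_j - (1/N) Σ_μ χ_{[0,x]}(ξ^μ)` of `N` points `ξ` at `x`. -/
noncomputable def localDisc {N d : ℕ} (ξ : Fin N → Fin d → ℝ) (x : Fin d → ℝ) : ℝ :=
  ∏ j, x j - (1 / (N : ℝ)) * ∑ μ : Fin N, (Set.Icc (0 : Fin d → ℝ) x).indicator (fun _ => (1 : ℝ)) (ξ μ)

/-- `D(ξ,N,d)_∞`: the `L_∞` norm of the local discrepancy over `[0,1]^d`. -/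
noncomputable def starDisc {N d : ℕ} (ξ : Fin N → Fin d → ℝ) : ENNReal :=
  eLpNorm (localDisc ξ) ⊤ (volume.restrict (Set.Icc (0 : Fin d → ℝ) 1))

/-- `ξ` is a digital set of `q^m` points of `[0,1)^d`, `q = |F|`, with the generating matrices
`M j` and the digit bijections `ψ j i : F ≃ {0, …, q-1}`: for some numbering of the points by the
vectors `v ∈ F^m` the first `m` digits of the coordinate `j` of the point of `v` are the images
under `ψ j 0, ψ j 1, …` of the entries of the vector `M j v`. The later digits are arbitrary. -/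
def IsDigital {F : Type} [Field F] [Fintype F] {m d : ℕ} (M : Fin d → Matrix (Fin m) (Fin m) F)
    (ψ : Fin d → Fin m → (F ≃ Fin (Fintype.card F)))
    (ξ : Fin (Fintype.card F ^ m) → Fin d → ℝ) : Prop :=
  ∃ e : Fin (Fintype.card F ^ m) ≃ (Fin m → F), ∀ μ j, 0 ≤ ξ μ j ∧ ξ μ j < 1 ∧
    ∀ i : Fin m, digitAt (Fintype.card F) i (ξ μ j) = (ψ j i ((M j).mulVec (e μ) i) : ℕ)

open Classical in
/-- `(t,m,d)`-nets in base `b`: every elementary interval `∏ [v_i b^(-k_i), (v_i+1) b^(-k_i))` of
volume `b^(t-m)` contains exactly `b^t` of the `b^m` points. -/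
def IsNet (b t m : ℕ) {d : ℕ} (ξ : Fin (b ^ m) → Fin d → ℝ) : Prop :=
  ∀ k v : Fin d → ℕ, ∑ i, k i + t = m → (∀ i, v i < b ^ k i) →
    (univ.filter (fun μ => ∀ i, (v i : ℝ) / (b:ℝ) ^ k i ≤ ξ μ i ∧
      ξ μ i < ((v i : ℝ) + 1) / (b:ℝ) ^ k i)).card = b ^ t

/-- The digital shift in base `b` of the number `x ∈ [0,1)` by the digits `w 0, …, w (L-1)`: the
`(a+1)`-st digit `⌊b^(a+1) x⌋ mod b` becomes `(⌊b^(a+1) x⌋ + w a) mod b` for `a < L`, and the later
digits (the part `fract (b^L x) / b^L` of `x`) are kept. -/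
noncomputable def digitalShift (b L : ℕ) (w : ℕ → ℕ) (x : ℝ) : ℝ :=
  (∑ a ∈ range L, (((⌊(b:ℝ) ^ (a + 1) * x⌋₊ + w a) % b : ℕ) : ℝ) / (b:ℝ) ^ (a + 1)) +
    Int.fract ((b:ℝ) ^ L * x) / (b:ℝ) ^ L

/-- The digital shift of a point set: each coordinate `j` of all the points is shifted by its own
digits `w j`. -/
noncomputable def shiftSet {N d : ℕ} (b L : ℕ) (w : Fin d → ℕ → ℕ) (ξ : Fin N → Fin d → ℝ) :
    Fin N → Fin d → ℝ := fun μ j => digitalShift b L (w j) (ξ μ j)

/-- **Theorem.** The star discrepancy of digital sets in dimension `d ≥ 3`, with constants that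
depend only on `d`: (1) lower bounds for all digital nets and all digital sets over all finite
fields; (2) for `m ≥ q^A` digital sets with small star discrepancy for all digit bijections and
all digital shifts; (3) for all sets of `q^m` points the worst digital shift is not better. -/
theorem result (d : ℕ) (hd : 3 ≤ d) : ∃ (A : ℕ) (c C : ℝ), 0 < c ∧ 0 < C ∧
    ∀ (F : Type) [Field F] [Fintype F] (m : ℕ), 2 ≤ m →
      (∀ (M : Fin d → Matrix (Fin m) (Fin m) F) (ψ : Fin d → Fin m → (F ≃ Fin (Fintype.card F)))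
        (ξ : Fin (Fintype.card F ^ m) → Fin d → ℝ), IsDigital M ψ ξ →
        (∀ t : ℕ, IsNet (Fintype.card F) t m ξ →
          ENNReal.ofReal (c * ((m : ℝ) / ((t : ℝ) + 1) ^ (1 + 1 / ((d : ℝ) - 2))) ^ (d - 1) /
            (Fintype.card F : ℝ) ^ m) ≤ starDisc ξ) ∧
        ENNReal.ofReal (c * ((m : ℝ) /
          (1 + Real.log m / Real.log (Fintype.card F)) ^ (1 + 1 / ((d : ℝ) - 2))) ^ (d - 1) /
            (Fintype.card F : ℝ) ^ m) ≤ starDisc ξ) ∧
      (Fintype.card F ^ A ≤ m → ∃ M : Fin d → Matrix (Fin m) (Fin m) F,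
        ∀ ψ : Fin d → Fin m → (F ≃ Fin (Fintype.card F)),
          (∃ ξ, IsDigital M ψ ξ) ∧ ∀ ξ, IsDigital M ψ ξ →
            starDisc ξ ≤ ENNReal.ofReal (C * ((m : ℝ) /
              (1 + Real.log m / Real.log (Fintype.card F))) ^ (d - 1) /
                (Fintype.card F : ℝ) ^ m) ∧
            ∀ (L : ℕ) (w : Fin d → ℕ → ℕ), starDisc (shiftSet (Fintype.card F) L w ξ) ≤
              ENNReal.ofReal (C * ((m : ℝ) /
                (1 + Real.log m / Real.log (Fintype.card F))) ^ (d - 1) /
                  (Fintype.card F : ℝ) ^ m)) ∧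
      ∀ ξ : Fin (Fintype.card F ^ m) → Fin d → ℝ, (∀ μ j, 0 ≤ ξ μ j ∧ ξ μ j < 1) →
        ∃ (L : ℕ) (w : Fin d → ℕ → ℕ),
          ENNReal.ofReal (c * ((m : ℝ) /
            (1 + Real.log m / Real.log (Fintype.card F))) ^ (d - 1) /
              (Fintype.card F : ℝ) ^ m) ≤ starDisc (shiftSet (Fintype.card F) L w ξ) :=
  Pool.Agent.H555.FF.finalS d hd

end Pool.Agent.Results.MP_173de9_an.DigitalSetsOrder
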