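import Pool.Agent.H538.DG.Ring

set_option autoImplicit false

/-!
# The star discrepancy of digital sets over arbitrary finite groups and rings, in every base

The digital constructions in a base `b ≥ 2` that need not be a prime power. A *group digital set*
of `b^m` points of `[0,1)^d` is given by an arbitrary finite group `A` with `b^m` elements,
arbitrary groups `G j i` with `b` elements (`j < d`, `i < m`), arbitrary homomorphisms
`φ j i : A → G j i` and arbitrary bijections `ψ j i : G j i → {0, …, b-1}`: the points are numbered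
by the elements `a` of `A`, and the `i`-th digit in base `b` of the `j`-th coordinate of the point
of `a` is `ψ j i (φ j i a)` for `i < m`. The later digits are arbitrary. No group has to be
commutative. Special cases are the digital sets over an arbitrary finite ring `R` with `b` elements
(generating matrices over `R`), for instance over `ℤ/b`, and those over finite fields.

With `lam b` the least `r` with `b ≤ p^r`, where `p` is the least prime factor of `b` (so
`lam b = 1` for primes and `lam (p^r) = r`), we prove for every dimension `d ≥ 3`, with a constant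
`c > 0` that depends only on `d`:

* every group digital set that is a `(t,m,d)`-net in base `b` has star discrepancy at least
  `c (m / ((t+1) lam b)²)^(d-1) / b^m`;
* every group digital set has star discrepancy at least
  `c (m / ((1 + log m / log b) lam b)²)^(d-1) / b^m`.

With `N = b^m` points the first bound is of the order `(log N)^(d-1) / N` for fixed `b`, `t`, `d`.
-/

namespace Pool.Agent.Results.MP_173de9_an.GroupDigitalNets

open Finset MeasureTheory

/-- The `i`-th digit in base `b` (`i = 0` is the first digit after the point) of `y ∈ [0,1)`. -/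
noncomputable def digitAt (b i : ℕ) (y : ℝ) : ℕ := ⌊(b : ℝ) ^ (i + 1) * y⌋₊ % b

/-- The local discrepancy `∏ x_j - (1/N) Σ_μ χ_{[0,x]}(ξ^μ)` of `N` points `ξ` at `x`. -/
noncomputable def localDisc {N d : ℕ} (ξ : Fin N → Fin d → ℝ) (x : Fin d → ℝ) : ℝ :=
  ∏ j, x j - (1 / (N : ℝ)) * ∑ μ : Fin N, (Set.Icc (0 : Fin d → ℝ) x).indicator (fun _ => (1 : ℝ)) (ξ μ)

/-- `D(ξ,N,d)_∞`: the `L_∞` norm of the local discrepancy over `[0,1]^d`. -/
noncomputable def starDisc {N d : ℕ} (ξ : Fin N → Fin d → ℝ) : ENNReal :=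
  eLpNorm (localDisc ξ) ⊤ (volume.restrict (Set.Icc (0 : Fin d → ℝ) 1))

/-- The least `r` with `b ≤ p^r`, where `p` is the least prime factor of `b`. -/
def lam (b : ℕ) : ℕ := Nat.clog b.minFac b

/-- `ξ` is the set of `b^m` points of `[0,1)^d` that belongs to the group `A`, the homomorphisms
`φ j i : A →* G j i` and the digit bijections `ψ j i : G j i ≃ {0, …, b-1}`: for some numbering of
the points by the elements `a ∈ A` the first `m` digits in base `b` of the coordinate `j` of the
point of `a` are `ψ j 0 (φ j 0 a), ψ j 1 (φ j 1 a), …`. The later digits are arbitrary. -/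
def IsGroupDigital {b m d : ℕ} {A : Type} [Group A] {G : Fin d → Fin m → Type}
    [∀ j i, Group (G j i)] (φ : ∀ j i, A →* G j i) (ψ : ∀ j i, G j i ≃ Fin b)
    (ξ : Fin (b ^ m) → Fin d → ℝ) : Prop :=
  ∃ e : Fin (b ^ m) ≃ A, ∀ μ j, 0 ≤ ξ μ j ∧ ξ μ j < 1 ∧
    ∀ i : Fin m, digitAt b i (ξ μ j) = (ψ j i (φ j i (e μ)) : ℕ)

/-- `ξ` is a digital set of `b^m` points of `[0,1)^d` over the finite ring `R` with `b` elements,
with the generating matrices `M j` and the digit bijections `ψ j i : R ≃ {0, …, b-1}`. -/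
def IsDigital {R : Type} [Ring R] [Fintype R] {m d : ℕ} (M : Fin d → Matrix (Fin m) (Fin m) R)
    (ψ : Fin d → Fin m → (R ≃ Fin (Fintype.card R)))
    (ξ : Fin (Fintype.card R ^ m) → Fin d → ℝ) : Prop :=
  ∃ e : Fin (Fintype.card R ^ m) ≃ (Fin m → R), ∀ μ j, 0 ≤ ξ μ j ∧ ξ μ j < 1 ∧
    ∀ i : Fin m, digitAt (Fintype.card R) i (ξ μ j) = (ψ j i ((M j).mulVec (e μ) i) : ℕ)

open Classical in
/-- `(t,m,d)`-nets in base `b`: every elementary interval `∏ [v_i b^(-k_i), (v_i+1) b^(-k_i))` of
volume `b^(t-m)` contains exactly `b^t` of the `b^m` points. -/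
def IsNet (b t m : ℕ) {d : ℕ} (ξ : Fin (b ^ m) → Fin d → ℝ) : Prop :=
  ∀ k v : Fin d → ℕ, ∑ i, k i + t = m → (∀ i, v i < b ^ k i) →
    (univ.filter (fun μ => ∀ i, (v i : ℝ) / (b:ℝ) ^ k i ≤ ξ μ i ∧
      ξ μ i < ((v i : ℝ) + 1) / (b:ℝ) ^ k i)).card = b ^ t

/-- **Theorem.** Lower bounds of the order `(log N)^(d-1) / N` for the star discrepancy of all
digital nets over arbitrary finite groups and over arbitrary finite rings, in every base `b ≥ 2`
and every dimension `d ≥ 3`, and lower bounds for all digital sets over groups and rings without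
any condition on the quality parameter. The constant `c` depends only on `d`. -/
theorem result (d : ℕ) (hd : 3 ≤ d) : ∃ c : ℝ, 0 < c ∧
    (∀ (b m : ℕ), 2 ≤ b → ∀ (A : Type) [Group A] (G : Fin d → Fin m → Type)
      [∀ j i, Group (G j i)] (φ : ∀ j i, A →* G j i) (ψ : ∀ j i, G j i ≃ Fin b)
      (ξ : Fin (b ^ m) → Fin d → ℝ), IsGroupDigital φ ψ ξ →
      (∀ t : ℕ, IsNet b t m ξ →
        ENNReal.ofReal (c * ((m : ℝ) / (((t : ℝ) + 1) * lam b) ^ 2) ^ (d - 1) /
          ((b : ℝ) ^ m)) ≤ starDisc ξ) ∧
      ENNReal.ofReal (c * ((m : ℝ) / ((1 + Real.log m / Real.log b) * lam b) ^ 2) ^ (d - 1) /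
          ((b : ℝ) ^ m)) ≤ starDisc ξ) ∧
    (∀ (R : Type) [Ring R] [Nontrivial R] [Fintype R] (m : ℕ)
      (M : Fin d → Matrix (Fin m) (Fin m) R) (ψ : Fin d → Fin m → (R ≃ Fin (Fintype.card R)))
      (ξ : Fin (Fintype.card R ^ m) → Fin d → ℝ), IsDigital M ψ ξ →
      (∀ t : ℕ, IsNet (Fintype.card R) t m ξ →
        ENNReal.ofReal (c * ((m : ℝ) / (((t : ℝ) + 1) * lam (Fintype.card R)) ^ 2) ^ (d - 1) /
          ((Fintype.card R : ℝ) ^ m)) ≤ starDisc ξ) ∧
      ENNReal.ofReal (c * ((m : ℝ) /
        ((1 + Real.log m / Real.log (Fintype.card R)) * lam (Fintype.card R)) ^ 2) ^ (d - 1) /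
          ((Fintype.card R : ℝ) ^ m)) ≤ starDisc ξ) :=
  Pool.Agent.H538.DG.ring_lower d hd

end Pool.Agent.Results.MP_173de9_an.GroupDigitalNets
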